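import Pool.Agent.U469.EW.Stm

/-! Project EW (helper469), auxiliary package PROD (helper594): `‖v‖²` for an integral `v`. -/

set_option autoImplicit false

namespace Pool.Agent.U594.EW.PROD

open MeasureTheory Set intervalIntegral

theorem real_sq (t : ℝ) (g : ℝ → ℝ) (hg : IntervalIntegrable g volume 0 t) (z : ℝ) :
    (z + ∫ s in (0:ℝ)..t, g s) ^ 2 =
      z ^ 2 + 2 * ∫ s in (0:ℝ)..t, g s * (z + ∫ r in (0:ℝ)..s, g r) := by
  set F : ℝ → ℝ := fun s => ∫ r in (0:ℝ)..s, g r with hF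
  have hac : AbsolutelyContinuousOnInterval F 0 t :=
    hg.absolutelyContinuousOnInterval_intervalIntegral (c := 0) (by simp)
  have h1 := hac.integral_deriv_mul_eq_sub hac
  have hF0 : F 0 = 0 := by simp [hF]
  have h2 : ∫ x in (0:ℝ)..t, deriv F x * F x + F x * deriv F x =
      ∫ x in (0:ℝ)..t, 2 * (g x * F x) := by
    apply intervalIntegral.integral_congr_ae
    filter_upwards [hg.ae_hasDerivAt_integral] with x hx hx2
    have h3 := hx (uIoc_subset_uIcc hx2) 0 (by simp)
    have h4 : deriv F x = g x := h3.deriv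
    rw [h4]
    ring
  rw [h2, hF0, intervalIntegral.integral_const_mul] at h1
  have hint : IntervalIntegrable (fun s => g s * F s) volume 0 t :=
    hg.mul_continuousOn hac.continuousOn
  have h5 : ∫ s in (0:ℝ)..t, g s * (z + F s) = z * F t + ∫ s in (0:ℝ)..t, g s * F s := by
    have h6 : (fun s => g s * (z + F s)) = fun s => z * g s + g s * F s := by
      funext s
      ring
    rw [h6, intervalIntegral.integral_add (hg.const_mul z) hint,
      intervalIntegral.integral_const_mul]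
  change (z + F t) ^ 2 = z ^ 2 + 2 * ∫ s in (0:ℝ)..t, g s * (z + F s)
  rw [h5]
  linarith

theorem t_prod : ∀ (T : ℝ) (hT : 0 ≤ T) (g : ℝ → ℂ) (hg : IntervalIntegrable g volume 0 T) (z : ℂ)
    (v : ℝ → ℂ) (hv : ∀ t ∈ Set.Icc 0 T, v t = z + ∫ s in (0:ℝ)..t, g s),
    ∀ t ∈ Set.Icc 0 T, ‖v t‖ ^ 2 =
      ‖v 0‖ ^ 2 + 2 * ∫ s in (0:ℝ)..t, (g s * (starRingEnd ℂ) (v s)).re := by
  intro T hT g hg z v hv t ht
  have hsub : ∀ s ∈ Set.Icc 0 t, IntervalIntegrable g volume 0 s := by
    intro s hs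
    refine hg.mono_set ?_
    rw [uIcc_of_le hs.1, uIcc_of_le hT]
    exact Icc_subset_Icc le_rfl (hs.2.trans ht.2)
  have hgt := hsub t ⟨ht.1, le_rfl⟩
  have hre : ∀ s ∈ Set.Icc 0 t, (v s).re = z.re + ∫ r in (0:ℝ)..s, (g r).re := by
    intro s hs
    rw [hv s ⟨hs.1, hs.2.trans ht.2⟩, Complex.add_re]
    congr 1
    exact (Complex.reCLM.intervalIntegral_comp_comm (hsub s hs)).symm
  have him : ∀ s ∈ Set.Icc 0 t, (v s).im = z.im + ∫ r in (0:ℝ)..s, (g r).im := by
    intro s hs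
    rw [hv s ⟨hs.1, hs.2.trans ht.2⟩, Complex.add_im]
    congr 1
    exact (Complex.imCLM.intervalIntegral_comp_comm (hsub s hs)).symm
  have hgre : IntervalIntegrable (fun s => (g s).re) volume 0 t := ⟨hgt.1.re, hgt.2.re⟩
  have hgim : IntervalIntegrable (fun s => (g s).im) volume 0 t := ⟨hgt.1.im, hgt.2.im⟩
  have h1 := real_sq t (fun s => (g s).re) hgre z.re
  have h2 := real_sq t (fun s => (g s).im) hgim z.im
  have hc1 : ContinuousOn (fun s => z.re + ∫ r in (0:ℝ)..s, (g r).re) (uIcc 0 t) :=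
    continuousOn_const.add
      (hgre.absolutelyContinuousOnInterval_intervalIntegral (c := 0) (by simp)).continuousOn
  have hc2 : ContinuousOn (fun s => z.im + ∫ r in (0:ℝ)..s, (g r).im) (uIcc 0 t) :=
    continuousOn_const.add
      (hgim.absolutelyContinuousOnInterval_intervalIntegral (c := 0) (by simp)).continuousOn
  have h3 : ∫ s in (0:ℝ)..t, (g s * (starRingEnd ℂ) (v s)).re =
      (∫ s in (0:ℝ)..t, (g s).re * (z.re + ∫ r in (0:ℝ)..s, (g r).re)) +
        ∫ s in (0:ℝ)..t, (g s).im * (z.im + ∫ r in (0:ℝ)..s, (g r).im) := by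
    rw [← intervalIntegral.integral_add (hgre.mul_continuousOn hc1) (hgim.mul_continuousOn hc2)]
    apply intervalIntegral.integral_congr
    intro s hs
    rw [uIcc_of_le ht.1] at hs
    simp only
    rw [← hre s hs, ← him s hs]
    simp [Complex.mul_re]
  have h0 : v 0 = z := by
    rw [hv 0 ⟨le_rfl, hT⟩]
    simp
  rw [h3, h0, Complex.sq_norm, Complex.sq_norm, Complex.normSq_apply, Complex.normSq_apply,
    hre t ⟨ht.1, le_rfl⟩, him t ⟨ht.1, le_rfl⟩]
  linarith

end Pool.Agent.U594.EW.PROD
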